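import Mathlib

/-! Determinants of integer matrices whose rows are sums of two network vectors. -/

set_option autoImplicit false

namespace Pool.Agent.X329.Net

open Finset Matrix

/-- the positive entries have sum at most one and so do the absolute values of the negative ones -/
def IsNet {ι : Type*} [Fintype ι] (v : ι → ℤ) : Prop :=
  ∑ i, max (v i) 0 ≤ 1 ∧ ∑ i, max (-v i) 0 ≤ 1

theorem net_zero_or {ι : Type*} [Fintype ι] [DecidableEq ι] (v : ι → ℤ) (h : IsNet v) :
    ∑ i, v i = 0 ∨ ∃ j, |v j| ≤ 1 ∧ ∀ i, i ≠ j → v i = 0 := by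
  obtain ⟨h1, h2⟩ := h
  have hsum : ∑ i, v i = ∑ i, max (v i) 0 - ∑ i, max (-v i) 0 := by
    rw [← Finset.sum_sub_distrib]
    refine Finset.sum_congr rfl fun i _ => ?_
    rcases le_total (v i) 0 with h | h
    · rw [max_eq_right h, max_eq_left (by linarith)]; ring
    · rw [max_eq_left h, max_eq_right (by linarith)]; ring
  have hp : 0 ≤ ∑ i, max (v i) 0 := Finset.sum_nonneg fun i _ => le_max_right _ _
  have hn : 0 ≤ ∑ i, max (-v i) 0 := Finset.sum_nonneg fun i _ => le_max_right _ _
  by_cases h0 : ∑ i, v i = 0
  · exact Or.inl h0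
  right
  have hne : ∃ j, v j ≠ 0 := by
    by_contra hcon
    push Not at hcon
    exact h0 (Finset.sum_eq_zero fun i _ => hcon i)
  obtain ⟨j, hj⟩ := hne
  have key : ∀ (w : ι → ℤ), (∀ i, 0 ≤ w i) → ∑ i, w i ≤ 1 → ∀ a b, a ≠ b → 0 < w a → w b = 0 := by
    intro w hw hs a b hab ha
    by_contra hb
    have hb' : 1 ≤ w b := by
      have := hw b
      omega
    have h3 : w a + w b ≤ ∑ i, w i := by
      rw [← Finset.sum_pair hab]
      exact Finset.sum_le_sum_of_subset_of_nonneg (Finset.subset_univ _) fun i _ _ => hw i
    omega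
  have hle : ∀ (w : ι → ℤ), (∀ i, 0 ≤ w i) → ∑ i, w i ≤ 1 → ∀ a, w a ≤ 1 := by
    intro w hw hs a
    exact (Finset.single_le_sum (fun i _ => hw i) (Finset.mem_univ a)).trans hs
  refine ⟨j, ?_, ?_⟩
  · rw [abs_le]
    have h3 := hle _ (fun i => le_max_right (v i) 0) h1 j
    have h4 := hle _ (fun i => le_max_right (-v i) 0) h2 j
    have h5 := le_max_left (v j) 0
    have h6 := le_max_left (-v j) 0
    constructor <;> linarith
  · -- one of the two sums is zero
    have hcase : ∑ i, max (v i) 0 = 0 ∨ ∑ i, max (-v i) 0 = 0 := by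
      by_contra hcon
      push Not at hcon
      apply h0
      rw [hsum]
      omega
    intro i hij
    rcases hcase with h3 | h3
    · have h4 : ∀ a, max (v a) 0 = 0 := fun a =>
        (Finset.sum_eq_zero_iff_of_nonneg fun i _ => le_max_right _ _).1 h3 a (Finset.mem_univ a)
      have h5 : 0 < max (-v j) 0 := by
        have := h4 j
        have h6 : v j ≤ 0 := by rw [← this]; exact le_max_left _ _
        exact lt_max_of_lt_left (by omega)
      have h6 := key _ (fun i => le_max_right (-v i) 0) h2 j i hij.symm h5
      have h7 : v i ≤ 0 := by rw [← h4 i]; exact le_max_left _ _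
      have h8 : -v i ≤ 0 := by rw [← h6]; exact le_max_left _ _
      omega
    · have h4 : ∀ a, max (-v a) 0 = 0 := fun a =>
        (Finset.sum_eq_zero_iff_of_nonneg fun i _ => le_max_right _ _).1 h3 a (Finset.mem_univ a)
      have h5 : 0 < max (v j) 0 := by
        have := h4 j
        have h6 : -v j ≤ 0 := by rw [← this]; exact le_max_left _ _
        exact lt_max_of_lt_left (by omega)
      have h6 := key _ (fun i => le_max_right (v i) 0) h1 j i hij.symm h5
      have h7 : -v i ≤ 0 := by rw [← h4 i]; exact le_max_left _ _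
      have h8 : v i ≤ 0 := by rw [← h6]; exact le_max_left _ _
      omega

theorem net_comp {ι κ : Type*} [Fintype ι] [Fintype κ] [DecidableEq κ] (v : κ → ℤ) (h : IsNet v)
    (f : ι ↪ κ) : IsNet (v ∘ f) := by
  have key : ∀ w : κ → ℤ, (∀ i, 0 ≤ w i) → ∑ i, w (f i) ≤ ∑ i, w i := by
    intro w hw
    rw [← Finset.sum_map Finset.univ f w]
    exact Finset.sum_le_sum_of_subset_of_nonneg (Finset.subset_univ _) fun i _ _ => hw i
  exact ⟨(key _ fun i => le_max_right (v i) 0).trans h.1,
    (key _ fun i => le_max_right (-v i) 0).trans h.2⟩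

/-- network matrices have determinant `0`, `1` or `-1` -/
theorem det_net : ∀ (n : ℕ) (A : Matrix (Fin n) (Fin n) ℤ), (∀ i, IsNet (A i)) → |A.det| ≤ 1 := by
  intro n
  induction n with
  | zero =>
    intro A _
    simp
  | succ n ih =>
    intro A hA
    by_cases hall : ∀ i, ∑ j, A i j = 0
    · have h1 : A.mulVec (fun _ => 1) = 0 := by
        ext i
        simp [Matrix.mulVec, dotProduct, hall i]
      have h2 : A.det = 0 := Matrix.exists_mulVec_eq_zero_iff.1 ⟨fun _ => 1, by
        intro h
        have := congrFun h 0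
        simp at this, h1⟩
      rw [h2]; simp
    · push Not at hall
      obtain ⟨i, hi⟩ := hall
      rcases net_zero_or (A i) (hA i) with h | ⟨j, hj1, hj2⟩
      · exact absurd h hi
      · rw [Matrix.det_succ_row A i, Finset.sum_eq_single j]
        · rw [abs_mul, abs_mul, abs_pow, abs_neg, abs_one, one_pow, one_mul]
          have h3 := ih (A.submatrix i.succAbove j.succAbove) fun k =>
            net_comp _ (hA (i.succAbove k)) j.succAboveEmb
          calc |A i j| * |(A.submatrix i.succAbove j.succAbove).det| ≤ 1 * 1 :=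
                mul_le_mul hj1 h3 (abs_nonneg _) zero_le_one
            _ = 1 := one_mul 1
        · intro k _ hk
          rw [hj2 k hk]; ring
        · intro h
          exact absurd (Finset.mem_univ _) h

/-- The rows in `s` are sums of two network vectors, the other rows are network vectors. -/
theorem det_le (n : ℕ) (s : Finset (Fin n)) : ∀ (A : Matrix (Fin n) (Fin n) ℤ),
    (∀ i ∈ s, ∃ a b, IsNet a ∧ IsNet b ∧ A i = a + b) → (∀ i ∉ s, IsNet (A i)) →
    |A.det| ≤ 2 ^ s.card := by
  induction s using Finset.induction_on with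
  | empty =>
    intro A _ h2
    simpa using det_net n A fun i => h2 i (Finset.notMem_empty i)
  | insert k s hk ih =>
    intro A h1 h2
    obtain ⟨a, b, ha, hb, hab⟩ := h1 k (Finset.mem_insert_self _ _)
    have hA : A = A.updateRow k (a + b) := by
      rw [← hab, Matrix.updateRow_eq_self]
    have hrows : ∀ c, IsNet c → |(A.updateRow k c).det| ≤ 2 ^ s.card := by
      intro c hc
      apply ih
      · intro i hi
        have hik : i ≠ k := fun h => hk (h ▸ hi)
        rw [Matrix.updateRow_ne hik]
        exact h1 i (Finset.mem_insert_of_mem hi)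
      · intro i hi
        by_cases hik : i = k
        · rw [hik, Matrix.updateRow_self]; exact hc
        · rw [Matrix.updateRow_ne hik]
          exact h2 i fun h => (Finset.mem_insert.1 h).elim hik hi
    rw [hA, Matrix.det_updateRow_add, Finset.card_insert_of_notMem hk, pow_succ]
    calc |(A.updateRow k a).det + (A.updateRow k b).det|
        ≤ |(A.updateRow k a).det| + |(A.updateRow k b).det| := abs_add_le _ _
      _ ≤ 2 ^ s.card + 2 ^ s.card := add_le_add (hrows a ha) (hrows b hb)
      _ = 2 ^ s.card * 2 := by ring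

theorem net_single {ι : Type*} [Fintype ι] [DecidableEq ι] (i : ι) :
    IsNet (Pi.single i (1 : ℤ)) := by
  constructor
  · rw [Finset.sum_eq_single i]
    · simp
    · intro j _ hj; simp [hj]
    · simp
  · rw [Finset.sum_eq_single i]
    · simp
    · intro j _ hj; simp [hj]
    · simp

theorem net_sub {ι : Type*} [Fintype ι] [DecidableEq ι] (i j : ι) :
    IsNet (Pi.single i (1 : ℤ) - Pi.single j 1) := by
  by_cases hij : i = j
  · subst hij
    simp [IsNet]
  constructor
  · rw [Finset.sum_eq_single i]
    · simp [hij]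
    · intro k _ hk
      by_cases hkj : k = j
      · subst hkj; simp [hk]
      · simp [hk, hkj]
    · simp
  · rw [Finset.sum_eq_single j]
    · simp [hij]
    · intro k _ hk
      by_cases hki : k = i
      · subst hki; simp [hk]
      · simp [hk, hki]
    · simp

theorem net_zero {ι : Type*} [Fintype ι] : IsNet (0 : ι → ℤ) := by
  simp [IsNet]

end Pool.Agent.X329.Net
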