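import Mathlib
import Pool.Agent.X329.Net.Det

/-! The unique solution of a system of equations `x_i = 1`, `x_i + x_j = x_k`. -/

set_option autoImplicit false

namespace Pool.Agent.X329.Net

open Finset Matrix

theorem rat_bound (a d : ℤ) (hd : d ≠ 0) (z : ℂ) (hz : (d : ℂ) * z = a) (B : ℕ) (ha : |a| ≤ B)
    (hdB : |d| ≤ B) : ∃ r : ℚ, z = (r : ℂ) ∧ |r.num| ≤ B ∧ r.den ≤ B := by
  have hdC : (d : ℂ) ≠ 0 := by exact_mod_cast hd
  refine ⟨(a : ℚ) / d, ?_, ?_, ?_⟩
  · push_cast
    rw [eq_div_iff hdC, mul_comm]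
    exact hz
  · have h1 : ((a : ℚ) / d).num ∣ a := by
      have := Rat.num_dvd a hd
      rwa [Rat.divInt_eq_div] at this
    by_cases h0 : a = 0
    · rw [h0]; simp
    · refine le_trans ?_ ha
      exact Int.le_of_dvd (abs_pos.2 h0) ((abs_dvd_abs _ _).2 h1)
  · have h1 : ((((a : ℚ) / d).den : ℕ) : ℤ) ∣ d := by
      have := Rat.den_dvd a d
      rwa [Rat.divInt_eq_div] at this
    have h2 : ((((a : ℚ) / d).den : ℕ) : ℤ) ≤ |d| :=
      Int.le_of_dvd (abs_pos.2 hd) ((dvd_abs _ _).2 h1)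
    exact_mod_cast h2.trans hdB

/-- Cramer's rule with the bound. -/
theorem cramer_bound {n : ℕ} (A : Matrix (Fin n) (Fin n) ℤ) (l : Fin n) (i0 : Fin n)
    (hl : A l = Pi.single i0 1)
    (hrow : ∀ i, i ≠ l → ∃ a b, IsNet a ∧ IsNet b ∧ A i = a + b)
    (hdet : A.det ≠ 0) (x : Fin n → ℂ)
    (hx : (A.map (Int.cast : ℤ → ℂ)).mulVec x = Pi.single l 1) (i : Fin n) :
    ∃ r : ℚ, x i = (r : ℂ) ∧ |r.num| ≤ 2 ^ (n - 1) ∧ r.den ≤ 2 ^ (n - 1) := by
  have hcard : (Finset.univ.erase l).card = n - 1 := by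
    rw [Finset.card_erase_of_mem (Finset.mem_univ l), Finset.card_univ, Fintype.card_fin]
  have hD : |A.det| ≤ 2 ^ (n - 1) := by
    rw [← hcard]
    refine det_le n _ A (fun k hk => hrow k (Finset.ne_of_mem_erase hk)) fun k hk => ?_
    have : k = l := by
      by_contra h
      exact hk (Finset.mem_erase.2 ⟨h, Finset.mem_univ _⟩)
    rw [this, hl]
    exact net_single i0
  have hN : |(A.adjugate i l)| ≤ 2 ^ (n - 1) := by
    rw [Matrix.adjugate_apply, ← hcard]
    refine det_le n _ _ (fun k hk => ?_) fun k hk => ?_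
    · have hkl := Finset.ne_of_mem_erase hk
      rw [Matrix.updateRow_ne hkl]
      exact hrow k hkl
    · have : k = l := by
        by_contra h
        exact hk (Finset.mem_erase.2 ⟨h, Finset.mem_univ _⟩)
      rw [this, Matrix.updateRow_self]
      exact net_single i
  have hx2 : (A.det : ℂ) * x i = (A.adjugate i l : ℤ) := by
    have h1 : ((A.map (Int.cast : ℤ → ℂ)).adjugate * (A.map (Int.cast : ℤ → ℂ))).mulVec x =
        (A.map (Int.cast : ℤ → ℂ)).adjugate.mulVec (Pi.single l 1) := by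
      rw [← Matrix.mulVec_mulVec, hx]
    rw [Matrix.adjugate_mul, Matrix.smul_mulVec, Matrix.one_mulVec] at h1
    have h2 := congrFun h1 i
    have h3 : (A.map (Int.cast : ℤ → ℂ)).det = (A.det : ℂ) :=
      ((Int.castRingHom ℂ).map_det A).symm
    have h4 : (A.map (Int.cast : ℤ → ℂ)).adjugate i l = ((A.adjugate i l : ℤ) : ℂ) := by
      have h5 := (Int.castRingHom ℂ).map_adjugate A
      have h6 := congrFun (congrFun h5 i) l
      exact h6.symm
    rw [Matrix.mulVec_single_one] at h2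
    simp only [Pi.smul_apply, smul_eq_mul, Matrix.col_apply] at h2
    rw [h3, h4] at h2
    exact h2
  have h := rat_bound (A.adjugate i l) A.det hdet (x i) hx2 (2 ^ (n - 1))
    (by exact_mod_cast hN) (by exact_mod_cast hD)
  obtain ⟨r, h1, h2, h3⟩ := h
  exact ⟨r, h1, by exact_mod_cast h2, h3⟩

/-- integer vectors acting on complex vectors -/
def ev {n : ℕ} (r : Fin n → ℤ) (x : Fin n → ℂ) : ℂ := ∑ i, (r i : ℂ) * x i

/-- A set `R` of integer vectors which are sums of two network vectors, and a vector `x` with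
`x i0 = 1` which is, up to factors, the only one orthogonal to `R`. -/
theorem unique_bound {n : ℕ} (R : Set (Fin n → ℤ)) (hR : ∀ r ∈ R, ∃ a b, IsNet a ∧ IsNet b ∧ r = a + b)
    (i0 : Fin n) (x : Fin n → ℂ) (hx0 : x i0 = 1) (hx : ∀ r ∈ R, ev r x = 0)
    (huniq : ∀ y : Fin n → ℂ, y i0 = 0 → (∀ r ∈ R, ev r y = 0) → y = 0) (i : Fin n) :
    ∃ r : ℚ, x i = (r : ℂ) ∧ |r.num| ≤ 2 ^ (n - 1) ∧ r.den ≤ 2 ^ (n - 1) := by
  classical
  let c : (Fin n → ℤ) → (Fin n → ℂ) := fun r i => (r i : ℂ)
  have hc : Function.Injective c := by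
    intro a b hab
    ext i
    have := congrFun hab i
    exact Int.cast_injective this
  set e : Fin n → ℂ := Pi.single i0 1 with he
  set T : Set (Fin n → ℂ) := insert e (c '' R) with hT
  -- `T` spans
  have hspan : Submodule.span ℂ T = ⊤ := by
    by_contra hne
    obtain ⟨f, hf0, hf⟩ := Submodule.exists_dual_map_eq_bot_of_lt_top (lt_top_iff_ne_top.2 hne)
      inferInstance
    have hf' : ∀ v ∈ T, f v = 0 := by
      intro v hv
      have h1 : f v ∈ (Submodule.span ℂ T).map f := ⟨v, Submodule.subset_span hv, rfl⟩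
      rw [hf] at h1
      exact (Submodule.mem_bot ℂ).1 h1
    let y : Fin n → ℂ := fun i => f (Pi.single i 1)
    have hfy : ∀ v : Fin n → ℂ, f v = ∑ i, v i * y i := by
      intro v
      have h1 : v = ∑ i, v i • (Pi.single i (1 : ℂ) : Fin n → ℂ) := by
        ext j
        simp [Finset.sum_apply, Pi.single_apply]
      conv_lhs => rw [h1]
      rw [map_sum]
      exact Finset.sum_congr rfl fun i _ => by rw [map_smul, smul_eq_mul]
    have hy : y = 0 := by
      apply huniq y
      · exact hf' e (Set.mem_insert _ _)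
      · intro r hr
        have h1 := hf' (c r) (Set.mem_insert_of_mem _ ⟨r, hr, rfl⟩)
        rw [hfy] at h1
        exact h1
    apply hf0
    ext v
    rw [LinearMap.comp_apply, LinearMap.zero_comp, LinearMap.zero_apply]
    show f (Pi.single v 1) = 0
    exact congrFun hy v
  have he0 : e ≠ 0 := by
    intro h
    have := congrFun h i0
    simp [he] at this
  have hli : LinearIndepOn ℂ id ({e} : Set (Fin n → ℂ)) := by
    rw [linearIndepOn_singleton_iff]
    exact he0
  obtain ⟨b, hbT, heb, hTb, hbli⟩ := exists_linearIndepOn_extension hli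
    (Set.singleton_subset_iff.2 (Set.mem_insert e (c '' R)))
  have hbspan : ⊤ ≤ Submodule.span ℂ (Set.range ((↑) : b → Fin n → ℂ)) := by
    rw [Subtype.range_coe, ← hspan]
    refine Submodule.span_le.2 fun v hv => ?_
    have := hTb ⟨v, hv, rfl⟩
    rwa [Set.image_id] at this
  let B : Module.Basis b ℂ (Fin n → ℂ) := Module.Basis.mk hbli hbspan
  have hfin : Finite b := Module.Finite.finite_basis B
  have := Fintype.ofFinite b
  have hcardb : Fintype.card b = n := by
    have h1 := Module.finrank_eq_card_basis B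
    rw [Module.finrank_fin_fun] at h1
    exact h1.symm
  let σ : Fin n ≃ b := (Fintype.equivFinOfCardEq hcardb).symm
  -- integer rows
  have hrows : ∀ v : b, ∃ r : Fin n → ℤ, c r = v ∧ ((v : Fin n → ℂ) = e → r = Pi.single i0 1) ∧
      ((v : Fin n → ℂ) ≠ e → r ∈ R) := by
    intro v
    rcases hbT v.2 with h | ⟨r, hr, hrv⟩
    · refine ⟨Pi.single i0 1, ?_, fun _ => rfl, fun h' => absurd h h'⟩
      rw [h, he]
      ext j
      show (((Pi.single i0 (1 : ℤ) : Fin n → ℤ) j : ℤ) : ℂ) = (Pi.single i0 (1 : ℂ) : Fin n → ℂ) j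
      by_cases hj : j = i0
      · subst hj; simp
      · simp [hj]
    · by_cases h : (v : Fin n → ℂ) = e
      · refine ⟨Pi.single i0 1, ?_, fun _ => rfl, fun h' => absurd h h'⟩
        rw [h, he]
        ext j
        show (((Pi.single i0 (1 : ℤ) : Fin n → ℤ) j : ℤ) : ℂ) = (Pi.single i0 (1 : ℂ) : Fin n → ℂ) j
        by_cases hj : j = i0
        · subst hj; simp
        · simp [hj]
      · exact ⟨r, hrv, fun h' => absurd h' h, fun _ => hr⟩
  choose ρ hρ1 hρ2 hρ3 using hrows
  let A : Matrix (Fin n) (Fin n) ℤ := fun k => ρ (σ k)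
  set l : Fin n := σ.symm ⟨e, Set.singleton_subset_iff.1 heb⟩ with hl
  have hσl : ((σ l : b) : Fin n → ℂ) = e := by rw [hl, Equiv.apply_symm_apply]
  have hσne : ∀ k, k ≠ l → ((σ k : b) : Fin n → ℂ) ≠ e := by
    intro k hk h
    apply hk
    rw [hl, ← Equiv.symm_apply_apply σ k]
    congr 1
    exact Subtype.ext h
  refine cramer_bound A l i0 (hρ2 _ hσl) (fun k hk => hR _ (hρ3 _ (hσne k hk))) ?_ x ?_ i
  · have hli2 : LinearIndependent ℂ (A.map (Int.cast : ℤ → ℂ)).row := by
      have h1 : (A.map (Int.cast : ℤ → ℂ)).row = fun k => ((σ k : b) : Fin n → ℂ) := by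
        ext k j
        exact congrFun (hρ1 (σ k)) j
      rw [h1]
      exact hbli.comp σ σ.injective
    have h2 := Matrix.linearIndependent_rows_iff_isUnit.1 hli2
    have h3 := (Matrix.isUnit_iff_isUnit_det _).1 h2
    intro h0
    have h4 : (A.map (Int.cast : ℤ → ℂ)).det = (A.det : ℂ) :=
      ((Int.castRingHom ℂ).map_det A).symm
    rw [h4, h0, Int.cast_zero] at h3
    exact not_isUnit_zero h3
  · ext k
    show ∑ j, ((A k j : ℤ) : ℂ) * x j = (Pi.single l (1 : ℂ) : Fin n → ℂ) k
    by_cases hk : k = l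
    · subst hk
      have h1 : A l = Pi.single i0 1 := hρ2 _ hσl
      rw [h1, Pi.single_eq_same, Finset.sum_eq_single i0]
      · simp [hx0]
      · intro j _ hj; simp [hj]
      · simp
    · rw [Pi.single_eq_of_ne hk]
      exact hx _ (hρ3 _ (hσne k hk))

end Pool.Agent.X329.Net
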